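import Pool.Agent.Lib.MFE.Final

/-!
# Minimal quasi-attractors on which an iterate contracts complex 2-dimensional area
-/

set_option autoImplicit false

open Set Filter Topology
open scoped LinearAlgebra.Projectivization

namespace Pool.Agent.Results.MP_f7684d_an.AreaContracting

/-- the self-map of `ℂ^n` given by `n` polynomials -/
noncomputable def lift {n : ℕ} (P : Fin n → MvPolynomial (Fin n) ℂ)
    (v : EuclideanSpace ℂ (Fin n)) : EuclideanSpace ℂ (Fin n) :=
  WithLp.toLp 2 (fun i => MvPolynomial.eval v.ofLp (P i))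

/-- the induced self-map of projective space, for polynomials without common zero -/
noncomputable def polyMap {n : ℕ} (P : Fin n → MvPolynomial (Fin n) ℂ)
    (h0 : ∀ v, v ≠ 0 → lift P v ≠ 0)
    (p : ℙ ℂ (EuclideanSpace ℂ (Fin n))) : ℙ ℂ (EuclideanSpace ℂ (Fin n)) :=
  Projectivization.mk ℂ (lift P p.rep) (h0 _ p.rep_nonzero)

/-- the Gram determinant of three vectors -/
noncomputable def gramDet {n : ℕ} (x a b : EuclideanSpace ℂ (Fin n)) : ℝ :=
  (Matrix.det (Matrix.of fun i j : Fin 3 => inner ℂ (![x, a, b] i) (![x, a, b] j))).re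

/-- some iterate contracts complex 2-dimensional area (of the Fubini-Study metric) on `Q` -/
def ContractsArea {n : ℕ} (F : EuclideanSpace ℂ (Fin n) → EuclideanSpace ℂ (Fin n))
    (Q : Set (ℙ ℂ (EuclideanSpace ℂ (Fin n)))) : Prop :=
  ∃ (N : ℕ) (θ : ℝ), 1 ≤ N ∧ θ < 1 ∧
    ∀ (x : EuclideanSpace ℂ (Fin n)) (hx : x ≠ 0), Projectivization.mk ℂ x hx ∈ Q →
      ∀ a b : EuclideanSpace ℂ (Fin n),
        gramDet (F^[N] x) (fderiv ℂ (F^[N]) x a) (fderiv ℂ (F^[N]) x b) / ‖F^[N] x‖ ^ 6 ≤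
          θ * (gramDet x a b / ‖x‖ ^ 6)

theorem lift_analytic {n : ℕ} (P : Fin n → MvPolynomial (Fin n) ℂ) :
    AnalyticOnNhd ℂ (lift P) univ := by
  have h1 : ∀ p : MvPolynomial (Fin n) ℂ, AnalyticOnNhd ℂ
      (fun v : EuclideanSpace ℂ (Fin n) => MvPolynomial.eval v.ofLp p) univ := by
    intro p
    induction p using MvPolynomial.induction_on with
    | C a =>
      simp only [MvPolynomial.eval_C]
      exact analyticOnNhd_const
    | add p q hp hq =>
      simp only [map_add]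
      exact hp.add hq
    | mul_X p i hp =>
      simp only [map_mul, MvPolynomial.eval_X]
      exact hp.mul ((EuclideanSpace.proj (𝕜 := ℂ) i).analyticOnNhd univ)
  have h2 : lift P = fun v => (EuclideanSpace.equiv (Fin n) ℂ).symm
      (fun i => MvPolynomial.eval v.ofLp (P i)) := rfl
  rw [h2]
  have h3 : AnalyticOnNhd ℂ (fun v : EuclideanSpace ℂ (Fin n) =>
      fun i => MvPolynomial.eval v.ofLp (P i)) univ := by
    rw [analyticOnNhd_pi_iff]
    exact fun i => h1 (P i)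
  exact (((EuclideanSpace.equiv (Fin n) ℂ).symm : (Fin n → ℂ) →L[ℂ]
    EuclideanSpace ℂ (Fin n)).analyticOnNhd univ).comp h3 (mapsTo_univ _ _)

theorem eval_smul {n d : ℕ} {p : MvPolynomial (Fin n) ℂ} (hp : p.IsHomogeneous d) (c : ℂ)
    (v : Fin n → ℂ) : MvPolynomial.eval (c • v) p = c ^ d * MvPolynomial.eval v p := by
  rw [MvPolynomial.eval_eq, MvPolynomial.eval_eq, Finset.mul_sum]
  refine Finset.sum_congr rfl fun m hm => ?_
  have h1 : ∑ i ∈ m.support, m i = d := by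
    have := hp (MvPolynomial.mem_support_iff.1 hm)
    rw [Finsupp.weight_apply] at this
    simpa [Finsupp.sum] using this
  simp only [Pi.smul_apply, smul_eq_mul, mul_pow, Finset.prod_mul_distrib]
  rw [Finset.prod_pow_eq_pow_sum, h1]
  ring

theorem result (n d : ℕ) (hd : 1 ≤ d) (P : Fin n → MvPolynomial (Fin n) ℂ)
    (hP : ∀ i, (P i).IsHomogeneous d) (h0 : ∀ v, v ≠ 0 → lift P v ≠ 0)
    (Q : Set (ℙ ℂ (EuclideanSpace ℂ (Fin n)))) (hQ : MF7.IsMinimalQuasi (polyMap P h0) Q)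
    (hA : ContractsArea (lift P) Q) : MF7.IsAttracting (polyMap P h0) Q := by
  let s : MFE.HMap (EuclideanSpace ℂ (Fin n)) :=
    { F := lift P
      d := d
      pos := hd
      an := lift_analytic P
      hom := by
        intro c x
        ext i
        change MvPolynomial.eval (c • x).ofLp (P i) = c ^ d * MvPolynomial.eval x.ofLp (P i)
        exact eval_smul (hP i) c x.ofLp
      ne := h0 }
  have hs : s.map = polyMap P h0 := rfl
  obtain ⟨N, θ, hN, hθ, h⟩ := hA
  have hA' : MFE.AreaContr s Q := by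
    refine ⟨N, θ, hN, hθ, ?_⟩
    intro x hx hxQ a b
    have h1 := h x hx hxQ a b
    have hx' : 0 < ‖x‖ := norm_pos_iff.2 hx
    have hF' : 0 < ‖s.F^[N] x‖ := norm_pos_iff.2 (s.iter_ne hx N)
    change _ / ‖s.F^[N] x‖ ^ 6 ≤ θ * (_ / ‖x‖ ^ 6) at h1
    rw [div_le_iff₀ (by positivity)] at h1
    have h2 : ‖x‖ ^ 6 * gramDet (s.F^[N] x) (fderiv ℂ (s.F^[N]) x a) (fderiv ℂ (s.F^[N]) x b) ≤
        ‖x‖ ^ 6 * (θ * (gramDet x a b / ‖x‖ ^ 6) * ‖s.F^[N] x‖ ^ 6) :=
      mul_le_mul_of_nonneg_left h1 (by positivity)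
    have h3 : ‖x‖ ^ 6 * (θ * (gramDet x a b / ‖x‖ ^ 6) * ‖s.F^[N] x‖ ^ 6) =
        θ * (‖s.F^[N] x‖ ^ 6 * gramDet x a b) := by
      field_simp
    rw [h3] at h2
    exact h2
  exact MFE.main s hQ hA'

end Pool.Agent.Results.MP_f7684d_an.AreaContracting
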