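import Pool.Agent.Lib.MF7_Final
import Pool.Agent.Lib.MF7_ND

/-!
# Minimal quasi-attractors of fibred endomorphisms of projective space
-/

set_option autoImplicit false

open Set Filter Topology
open scoped LinearAlgebra.Projectivization

namespace Pool.Agent.Results.MP_f7684d_an.FibredMaps

open MF7

/-- the self-map of projective space given by homogeneous polynomials without common zero -/
noncomputable def polyMap {n : ℕ} (P : Fin n → MvPolynomial (Fin n) ℂ)
    (h0 : ∀ v : Fin n → ℂ, v ≠ 0 → (fun i => MvPolynomial.eval v (P i)) ≠ 0)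
    (p : ℙ ℂ (Fin n → ℂ)) : ℙ ℂ (Fin n → ℂ) :=
  Projectivization.mk ℂ (fun i => MvPolynomial.eval p.rep (P i)) (h0 _ p.rep_nonzero)

theorem result (n d : ℕ) (hd : 2 ≤ d) (P : Fin n → MvPolynomial (Fin n) ℂ)
    (hP : ∀ i, (P i).IsHomogeneous d)
    (h0 : ∀ v : Fin n → ℂ, v ≠ 0 → (fun i => MvPolynomial.eval v (P i)) ≠ 0)
    (htri : ∀ i, ∀ j ∈ (P i).vars, (j : ℕ) / 2 ≤ (i : ℕ) / 2)
    (Q : Set (ℙ ℂ (Fin n → ℂ))) (hQ : IsMinimalQuasi (polyMap P h0) Q) :
    IsAttracting (polyMap P h0) Q := by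
  have ht : ∀ (i : Fin n) (v w : Fin n → ℂ),
      (∀ j : Fin n, (j : ℕ) / 2 ≤ (i : ℕ) / 2 → v j = w j) →
      MvPolynomial.eval v (P i) = MvPolynomial.eval w (P i) := by
    intro i v w h
    refine MvPolynomial.eval₂Hom_congr' rfl ?_ rfl
    intro j hj _
    exact h j (htri i j hj)
  let f : FM n d :=
    { Φ := fun v i => MvPolynomial.eval v (P i)
      poly := fun i => ⟨P i, fun v => rfl⟩
      hom := fun c v => by
        ext i
        simp only [Pi.smul_apply, smul_eq_mul]
        exact ND.eval_smul (hP i) c v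
      tri := ht
      nondeg := nondeg_of_ne (by omega) P hP htri (fun v hv => Function.ne_iff.1 (h0 v hv)) }
  exact main hd n f Q hQ

end Pool.Agent.Results.MP_f7684d_an.FibredMaps
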