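import Pool.Agent.Lib.MFE.Hyp3

/-!
# Minimal quasi-attractors and algebraic hypersurfaces
-/

set_option autoImplicit false

open Set Filter Topology
open scoped LinearAlgebra.Projectivization

namespace Pool.Agent.Results.MP_f7684d_an.Hypersurfaces

/-- the self-map of `ℂ^n` given by `n` polynomials -/
noncomputable def lift {n : ℕ} (P : Fin n → MvPolynomial (Fin n) ℂ)
    (v : EuclideanSpace ℂ (Fin n)) : EuclideanSpace ℂ (Fin n) :=
  WithLp.toLp 2 (fun i => MvPolynomial.eval v.ofLp (P i))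

/-- the induced self-map of projective space, for polynomials without common zero -/
noncomputable def polyMap {n : ℕ} (P : Fin n → MvPolynomial (Fin n) ℂ)
    (h0 : ∀ v, v ≠ 0 → lift P v ≠ 0)
    (p : ℙ ℂ (EuclideanSpace ℂ (Fin n))) : ℙ ℂ (EuclideanSpace ℂ (Fin n)) :=
  Projectivization.mk ℂ (lift P p.rep) (h0 _ p.rep_nonzero)

/-- the algebraic hypersurface `h = 0` of a homogeneous polynomial `h` -/
def hyp {n : ℕ} (h : MvPolynomial (Fin n) ℂ) : Set (ℙ ℂ (EuclideanSpace ℂ (Fin n))) :=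
  {p | MvPolynomial.eval p.rep.ofLp h = 0}

/-- the chordal distance: the sine of the angle between two complex lines -/
noncomputable def chord {n : ℕ} (p q : ℙ ℂ (EuclideanSpace ℂ (Fin n))) : ℝ :=
  Real.sqrt (1 - (‖inner ℂ p.rep q.rep‖ / (‖p.rep‖ * ‖q.rep‖)) ^ 2)

/-- the set `Z` has four-dimensional Hausdorff measure zero, for the chordal distance -/
def Null4 {n : ℕ} (Z : Set (ℙ ℂ (EuclideanSpace ℂ (Fin n)))) : Prop :=
  MFE.Thin4 (EuclideanSpace ℂ (Fin n)) Z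

/-- `p` is in the Fatou set of `f`: the iterates of `f` are equicontinuous at all points of a
neighbourhood of `p` -/
def InFatou {n : ℕ} (f : ℙ ℂ (EuclideanSpace ℂ (Fin n)) → ℙ ℂ (EuclideanSpace ℂ (Fin n)))
    (p : ℙ ℂ (EuclideanSpace ℂ (Fin n))) : Prop :=
  ∃ δ : ℝ, 0 < δ ∧ ∀ q, chord q p < δ → ∀ ε : ℝ, 0 < ε → ∃ η : ℝ, 0 < η ∧
    ∀ q', chord q' q < η → ∀ m : ℕ, chord (f^[m] q') (f^[m] q) < ε

/-- `A` is thin at `p`: in the plane, `p` is not an interior point of `A`; in general, `A` has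
four-dimensional Hausdorff measure zero near `p` -/
def ThinAtPoint {n : ℕ} (A : Set (ℙ ℂ (EuclideanSpace ℂ (Fin n))))
    (p : ℙ ℂ (EuclideanSpace ℂ (Fin n))) : Prop :=
  (n = 3 ∧ p ∉ interior A) ∨ ∃ r : ℝ, 0 < r ∧ Null4 (A ∩ {q | chord q p < r})

theorem eval_analytic {n : ℕ} (p : MvPolynomial (Fin n) ℂ) : AnalyticOnNhd ℂ
    (fun v : EuclideanSpace ℂ (Fin n) => MvPolynomial.eval v.ofLp p) univ := by
  induction p using MvPolynomial.induction_on with
  | C a =>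
    simp only [MvPolynomial.eval_C]
    exact analyticOnNhd_const
  | add p q hp hq =>
    simp only [map_add]
    exact hp.add hq
  | mul_X p i hp =>
    simp only [map_mul, MvPolynomial.eval_X]
    exact hp.mul ((EuclideanSpace.proj (𝕜 := ℂ) i).analyticOnNhd univ)

theorem lift_analytic {n : ℕ} (P : Fin n → MvPolynomial (Fin n) ℂ) :
    AnalyticOnNhd ℂ (lift P) univ := by
  have h2 : lift P = fun v => (EuclideanSpace.equiv (Fin n) ℂ).symm
      (fun i => MvPolynomial.eval v.ofLp (P i)) := rfl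
  rw [h2]
  have h3 : AnalyticOnNhd ℂ (fun v : EuclideanSpace ℂ (Fin n) =>
      fun i => MvPolynomial.eval v.ofLp (P i)) univ := by
    rw [analyticOnNhd_pi_iff]
    exact fun i => eval_analytic (P i)
  exact (((EuclideanSpace.equiv (Fin n) ℂ).symm : (Fin n → ℂ) →L[ℂ]
    EuclideanSpace ℂ (Fin n)).analyticOnNhd univ).comp h3 (mapsTo_univ _ _)

theorem sum_deg {n d : ℕ} {p : MvPolynomial (Fin n) ℂ} (hp : p.IsHomogeneous d)
    {m : Fin n →₀ ℕ} (hm : m ∈ p.support) : ∑ i, m i = d := by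
  have := hp (MvPolynomial.mem_support_iff.1 hm)
  rw [Finsupp.weight_apply, Finsupp.sum_fintype] at this
  · simpa using this
  · intro i
    simp

theorem eval_smul {n d : ℕ} {p : MvPolynomial (Fin n) ℂ} (hp : p.IsHomogeneous d) (c : ℂ)
    (v : Fin n → ℂ) : MvPolynomial.eval (c • v) p = c ^ d * MvPolynomial.eval v p := by
  rw [MvPolynomial.eval_eq', MvPolynomial.eval_eq', Finset.mul_sum]
  refine Finset.sum_congr rfl fun m hm => ?_
  have h1 := sum_deg hp hm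
  simp only [Pi.smul_apply, smul_eq_mul, mul_pow, Finset.prod_mul_distrib]
  rw [Finset.prod_pow_eq_pow_sum, h1]
  ring

/-- bound for a polynomial all of whose monomials contain `x_i ^ 2` or a later variable -/
theorem eval_bound {n d : ℕ} {p : MvPolynomial (Fin n) ℂ} (hp : p.IsHomogeneous d) (i : Fin n)
    (hm : ∀ k ∈ p.support, 2 ≤ k i ∨ ∃ j, i < j ∧ 0 < k j) :
    ∃ c : ℝ, 0 ≤ c ∧ ∀ v : EuclideanSpace ℂ (Fin n), (∀ l : Fin n, i < l → v l = 0) →
      ‖MvPolynomial.eval v.ofLp p‖ ≤ c * (‖v i‖ ^ 2 * ‖v‖ ^ (d - 2)) := by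
  refine ⟨∑ k ∈ p.support, ‖p.coeff k‖, Finset.sum_nonneg fun k _ => norm_nonneg _,
    fun v hv => ?_⟩
  rw [MvPolynomial.eval_eq']
  refine (norm_sum_le _ _).trans ?_
  rw [Finset.sum_mul]
  refine Finset.sum_le_sum fun k hk => ?_
  rw [norm_mul]
  refine mul_le_mul_of_nonneg_left ?_ (norm_nonneg _)
  have hcoord : ∀ l : Fin n, ‖v.ofLp l‖ ≤ ‖v‖ := fun l => PiLp.norm_apply_le v l
  have hsum := sum_deg hp hk
  rcases hm k hk with h2 | ⟨j, hj, hkj⟩
  · rw [← Finset.mul_prod_erase _ _ (Finset.mem_univ i), norm_mul, norm_pow, norm_prod]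
    have h3 : k i + ∑ l ∈ Finset.univ.erase i, k l = d := by
      rw [Finset.add_sum_erase _ _ (Finset.mem_univ i)]
      exact hsum
    have h4 : ∏ l ∈ Finset.univ.erase i, ‖v.ofLp l ^ k l‖ ≤
        ‖v‖ ^ ∑ l ∈ Finset.univ.erase i, k l := by
      rw [← Finset.prod_pow_eq_pow_sum]
      refine Finset.prod_le_prod (fun l _ => norm_nonneg _) fun l _ => ?_
      rw [norm_pow]
      exact pow_le_pow_left₀ (norm_nonneg _) (hcoord l) _
    have h5 : ‖v.ofLp i‖ ^ k i ≤ ‖v i‖ ^ 2 * ‖v‖ ^ (k i - 2) := by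
      have h6 : k i = 2 + (k i - 2) := by omega
      calc ‖v.ofLp i‖ ^ k i = ‖v.ofLp i‖ ^ 2 * ‖v.ofLp i‖ ^ (k i - 2) := by
            rw [← pow_add, ← h6]
        _ ≤ ‖v i‖ ^ 2 * ‖v‖ ^ (k i - 2) :=
            mul_le_mul_of_nonneg_left (pow_le_pow_left₀ (norm_nonneg _) (hcoord i) _)
              (by positivity)
    calc ‖v.ofLp i‖ ^ k i * ∏ l ∈ Finset.univ.erase i, ‖v.ofLp l ^ k l‖ ≤
          ‖v i‖ ^ 2 * ‖v‖ ^ (k i - 2) * ‖v‖ ^ ∑ l ∈ Finset.univ.erase i, k l :=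
          mul_le_mul h5 h4 (Finset.prod_nonneg fun l _ => norm_nonneg _) (by positivity)
      _ = ‖v i‖ ^ 2 * ‖v‖ ^ (d - 2) := by
          rw [mul_assoc, ← pow_add]
          congr 2
          omega
  · have h3 : ∏ l, v.ofLp l ^ k l = 0 := by
      refine Finset.prod_eq_zero (Finset.mem_univ j) ?_
      have h4 : v.ofLp j = 0 := hv j hj
      rw [h4, zero_pow hkj.ne']
    rw [h3, norm_zero]
    positivity

theorem result (n d : ℕ) (hd : 2 ≤ d) (P : Fin n → MvPolynomial (Fin n) ℂ)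
    (hP : ∀ i, (P i).IsHomogeneous d) (h0 : ∀ v, v ≠ 0 → lift P v ≠ 0) :
    (∀ Q : Set (ℙ ℂ (EuclideanSpace ℂ (Fin n))), MF7.IsMinimalQuasi (polyMap P h0) Q →
      ¬ MF7.IsAttracting (polyMap P h0) Q → ∀ (m : ℕ) (h : MvPolynomial (Fin n) ℂ), 1 ≤ m →
        h.IsHomogeneous m → (Q ∩ hyp h).Nonempty) ∧
    (∀ (r : ℕ) (A : ℕ → Set (ℙ ℂ (EuclideanSpace ℂ (Fin n)))) (m : ℕ → ℕ)
      (h : ℕ → MvPolynomial (Fin n) ℂ), 1 ≤ r → A 0 = univ →
      (∀ i < r, 1 ≤ m i ∧ (h i).IsHomogeneous (m i) ∧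
        ∃ U, MF7.IsTrapping (polyMap P h0) U ∧ A (i + 1) = (⋂ k : ℕ, (polyMap P h0)^[k] '' U) ∧
          ∀ p ∈ A i ∩ hyp (h i), ∃ k : ℕ, (polyMap P h0)^[k] p ∈ U) →
      (∀ Q, MF7.IsMinimalQuasi (polyMap P h0) Q → ¬ MF7.IsAttracting (polyMap P h0) Q →
        Q ⊆ A r) ∧
      ((∀ Λ : Set (ℙ ℂ (EuclideanSpace ℂ (Fin n))), IsClosed Λ → Λ.Nonempty → Λ ⊆ A r →
        polyMap P h0 '' Λ = Λ → ∃ p ∈ Λ, ThinAtPoint (A r) p ∨ InFatou (polyMap P h0) p) →
        ∀ Q, MF7.IsMinimalQuasi (polyMap P h0) Q → MF7.IsAttracting (polyMap P h0) Q)) ∧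
    (2 ≤ n → (∀ i : Fin n, 2 ≤ (i : ℕ) → ∀ k ∈ (P i).support, 2 ≤ k i ∨ ∃ j, i < j ∧ 0 < k j) →
      ∀ Q, MF7.IsMinimalQuasi (polyMap P h0) Q → MF7.IsAttracting (polyMap P h0) Q) := by
  let s : MFE.HMap (EuclideanSpace ℂ (Fin n)) :=
    { F := lift P
      d := d
      pos := by omega
      an := lift_analytic P
      hom := by
        intro c x
        ext i
        change MvPolynomial.eval (c • x).ofLp (P i) = c ^ d * MvPolynomial.eval x.ofLp (P i)
        exact eval_smul (hP i) c x.ofLp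
      ne := h0 }
  have hs : s.map = polyMap P h0 := rfl
  have hhom : ∀ {m : ℕ} {h : MvPolynomial (Fin n) ℂ}, h.IsHomogeneous m →
      ∀ (c : ℂ) (x : EuclideanSpace ℂ (Fin n)), MvPolynomial.eval (c • x).ofLp h =
        c ^ m * MvPolynomial.eval x.ofLp h := fun hh c x => eval_smul hh c x.ofLp
  refine ⟨?_, ?_, ?_⟩
  · intro Q hQ hna m h hm hh
    by_contra hcon
    have hdis : Disjoint Q (MFE.Zero (fun v : EuclideanSpace ℂ (Fin n) =>
        MvPolynomial.eval v.ofLp h)) := by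
      rw [disjoint_left]
      intro q hq hqz
      exact hcon ⟨q, hq, hqz⟩
    exact hna (MFE.attracting_of_miss s hm (eval_analytic h) (hhom hh) hQ hdis)
  · intro r A m h hr hA0 hA
    have hA' : ∀ i < r, 1 ≤ m i ∧ AnalyticOnNhd ℂ
        (fun v : EuclideanSpace ℂ (Fin n) => MvPolynomial.eval v.ofLp (h i)) univ ∧
        (∀ (c : ℂ) (x : EuclideanSpace ℂ (Fin n)), MvPolynomial.eval (c • x).ofLp (h i) =
          c ^ m i * MvPolynomial.eval x.ofLp (h i)) ∧
        ∃ U, MF7.IsTrapping s.map U ∧ A (i + 1) = (⋂ k : ℕ, s.map^[k] '' U) ∧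
          ∀ p ∈ A i ∩ MFE.Zero (fun v : EuclideanSpace ℂ (Fin n) =>
            MvPolynomial.eval v.ofLp (h i)), ∃ k : ℕ, s.map^[k] p ∈ U := by
      intro i hi
      obtain ⟨h2, h3, h4⟩ := hA i hi
      exact ⟨h2, eval_analytic (h i), hhom h3, h4⟩
    refine ⟨fun Q hQ hna => MFE.subset_tower s (A := A)
      (h := fun i v => MvPolynomial.eval v.ofLp (h i)) (μ := m) hA0 hA' hQ hna r le_rfl, ?_⟩
    intro hΛ Q hQ
    have hAr : IsClosed (A r) := by
      haveI : CompactSpace (ℙ ℂ (EuclideanSpace ℂ (Fin n))) := MFE.compactSpace_proj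
      letI := MFE.projMetric (EuclideanSpace ℂ (Fin n))
      obtain ⟨-, -, U, hU, hUA, -⟩ := hA (r - 1) (by omega)
      have h2 : r - 1 + 1 = r := by omega
      rw [h2] at hUA
      exact (MF7.T2x.attracting_closed s.continuous_map ⟨U, hU, hUA⟩).1
    have hmain : MF7.IsAttracting s.map Q := by
      refine MFE.attracting_of_tower s hr (A := A)
        (h := fun i v => MvPolynomial.eval v.ofLp (h i)) (μ := m) hA0 hA' ?_ hQ
      intro Λ h1 h2 h3 h4
      obtain ⟨p, hp, h5⟩ := hΛ Λ h1 h2 h4 h3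
      refine ⟨p, hp, ?_⟩
      rcases h5 with (⟨hn, h5⟩ | ⟨ρ, hρ, h5⟩) | h5
      · left
        refine MFE.thinPt_of_notMem_interior ?_ (h4 hp) h5
        rw [finrank_euclideanSpace_fin, hn]
      · left
        exact MFE.thinPt_of_null hAr hρ h5
      · right
        exact h5
    exact hmain
  · intro hn hflag Q hQ
    have hmain : MF7.IsAttracting s.map Q := by
      refine MFE.attracting_of_flag s hd hn ?_ hQ
      intro i hi
      exact eval_bound (hP i) i (hflag i hi)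
    exact hmain

end Pool.Agent.Results.MP_f7684d_an.Hypersurfaces
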