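import Pool.Agent.Lib.MFE.FinalF

/-!
# Minimal quasi-attractors inside thin attracting sets
-/

set_option autoImplicit false

open Set Filter Topology
open scoped LinearAlgebra.Projectivization

namespace Pool.Agent.Results.MP_f7684d_an.ThinAttracting

/-- the self-map of `ℂ^n` given by `n` polynomials -/
noncomputable def lift {n : ℕ} (P : Fin n → MvPolynomial (Fin n) ℂ)
    (v : EuclideanSpace ℂ (Fin n)) : EuclideanSpace ℂ (Fin n) :=
  WithLp.toLp 2 (fun i => MvPolynomial.eval v.ofLp (P i))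

/-- the induced self-map of projective space, for polynomials without common zero -/
noncomputable def polyMap {n : ℕ} (P : Fin n → MvPolynomial (Fin n) ℂ)
    (h0 : ∀ v, v ≠ 0 → lift P v ≠ 0)
    (p : ℙ ℂ (EuclideanSpace ℂ (Fin n))) : ℙ ℂ (EuclideanSpace ℂ (Fin n)) :=
  Projectivization.mk ℂ (lift P p.rep) (h0 _ p.rep_nonzero)

/-- the chordal distance: the sine of the angle between two complex lines -/
noncomputable def chord {n : ℕ} (p q : ℙ ℂ (EuclideanSpace ℂ (Fin n))) : ℝ :=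
  Real.sqrt (1 - (‖inner ℂ p.rep q.rep‖ / (‖p.rep‖ * ‖q.rep‖)) ^ 2)

/-- the set `Z` has four-dimensional Hausdorff measure zero, for the chordal distance -/
def Null4 {n : ℕ} (Z : Set (ℙ ℂ (EuclideanSpace ℂ (Fin n)))) : Prop :=
  MFE.Thin4 (EuclideanSpace ℂ (Fin n)) Z

/-- `p` is in the Fatou set of `f`: the iterates of `f` are equicontinuous at all points of a
neighbourhood of `p` -/
def InFatou {n : ℕ} (f : ℙ ℂ (EuclideanSpace ℂ (Fin n)) → ℙ ℂ (EuclideanSpace ℂ (Fin n)))
    (p : ℙ ℂ (EuclideanSpace ℂ (Fin n))) : Prop :=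
  ∃ δ : ℝ, 0 < δ ∧ ∀ q, chord q p < δ → ∀ ε : ℝ, 0 < ε → ∃ η : ℝ, 0 < η ∧
    ∀ q', chord q' q < η → ∀ m : ℕ, chord (f^[m] q') (f^[m] q) < ε

/-- `A` is thin at `p`: in the plane, `p` is not an interior point of `A`; in general, `A` has
four-dimensional Hausdorff measure zero near `p` -/
def ThinAtPoint {n : ℕ} (A : Set (ℙ ℂ (EuclideanSpace ℂ (Fin n))))
    (p : ℙ ℂ (EuclideanSpace ℂ (Fin n))) : Prop :=
  (n = 3 ∧ p ∉ interior A) ∨ ∃ r : ℝ, 0 < r ∧ Null4 (A ∩ {q | chord q p < r})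

theorem lift_analytic {n : ℕ} (P : Fin n → MvPolynomial (Fin n) ℂ) :
    AnalyticOnNhd ℂ (lift P) univ := by
  have h1 : ∀ p : MvPolynomial (Fin n) ℂ, AnalyticOnNhd ℂ
      (fun v : EuclideanSpace ℂ (Fin n) => MvPolynomial.eval v.ofLp p) univ := by
    intro p
    induction p using MvPolynomial.induction_on with
    | C a =>
      simp only [MvPolynomial.eval_C]
      exact analyticOnNhd_const
    | add p q hp hq =>
      simp only [map_add]
      exact hp.add hq
    | mul_X p i hp =>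
      simp only [map_mul, MvPolynomial.eval_X]
      exact hp.mul ((EuclideanSpace.proj (𝕜 := ℂ) i).analyticOnNhd univ)
  have h2 : lift P = fun v => (EuclideanSpace.equiv (Fin n) ℂ).symm
      (fun i => MvPolynomial.eval v.ofLp (P i)) := rfl
  rw [h2]
  have h3 : AnalyticOnNhd ℂ (fun v : EuclideanSpace ℂ (Fin n) =>
      fun i => MvPolynomial.eval v.ofLp (P i)) univ := by
    rw [analyticOnNhd_pi_iff]
    exact fun i => h1 (P i)
  exact (((EuclideanSpace.equiv (Fin n) ℂ).symm : (Fin n → ℂ) →L[ℂ]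
    EuclideanSpace ℂ (Fin n)).analyticOnNhd univ).comp h3 (mapsTo_univ _ _)

theorem eval_smul {n d : ℕ} {p : MvPolynomial (Fin n) ℂ} (hp : p.IsHomogeneous d) (c : ℂ)
    (v : Fin n → ℂ) : MvPolynomial.eval (c • v) p = c ^ d * MvPolynomial.eval v p := by
  rw [MvPolynomial.eval_eq, MvPolynomial.eval_eq, Finset.mul_sum]
  refine Finset.sum_congr rfl fun m hm => ?_
  have h1 : ∑ i ∈ m.support, m i = d := by
    have := hp (MvPolynomial.mem_support_iff.1 hm)
    rw [Finsupp.weight_apply] at this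
    simpa [Finsupp.sum] using this
  simp only [Pi.smul_apply, smul_eq_mul, mul_pow, Finset.prod_mul_distrib]
  rw [Finset.prod_pow_eq_pow_sum, h1]
  ring

theorem result (n d : ℕ) (hd : 1 ≤ d) (P : Fin n → MvPolynomial (Fin n) ℂ)
    (hP : ∀ i, (P i).IsHomogeneous d) (h0 : ∀ v, v ≠ 0 → lift P v ≠ 0)
    (Q A : Set (ℙ ℂ (EuclideanSpace ℂ (Fin n)))) (hQ : MF7.IsMinimalQuasi (polyMap P h0) Q)
    (hA : MF7.IsAttracting (polyMap P h0) A) (hQA : Q ⊆ A)
    (h : ∀ Λ : Set (ℙ ℂ (EuclideanSpace ℂ (Fin n))), IsClosed Λ → Λ.Nonempty → Λ ⊆ A \ Q →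
      polyMap P h0 '' Λ = Λ → ∃ p ∈ Λ, ThinAtPoint A p ∨ InFatou (polyMap P h0) p) :
    MF7.IsAttracting (polyMap P h0) Q := by
  let s : MFE.HMap (EuclideanSpace ℂ (Fin n)) :=
    { F := lift P
      d := d
      pos := hd
      an := lift_analytic P
      hom := by
        intro c x
        ext i
        change MvPolynomial.eval (c • x).ofLp (P i) = c ^ d * MvPolynomial.eval x.ofLp (P i)
        exact eval_smul (hP i) c x.ofLp
      ne := h0 }
  have hs : s.map = polyMap P h0 := rfl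
  have hAc : IsClosed A := by
    haveI : CompactSpace (ℙ ℂ (EuclideanSpace ℂ (Fin n))) := MFE.compactSpace_proj
    letI := MFE.projMetric (EuclideanSpace ℂ (Fin n))
    exact (MF7.T2x.attracting_closed s.continuous_map (hs ▸ hA)).1
  have hmain : MF7.IsAttracting s.map Q := by
    refine MFE.mainThin s hQ hA hQA ?_
    intro Λ h1 h2 h3 h4
    obtain ⟨p, hp, h5⟩ := h Λ h1 h2 h4 h3
    refine ⟨p, hp, ?_⟩
    rcases h5 with (⟨hn, h5⟩ | ⟨r, hr, h5⟩) | h5
    · left
      refine MFE.thinPt_of_notMem_interior ?_ (h4 hp).1 h5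
      rw [finrank_euclideanSpace_fin, hn]
    · left
      exact MFE.thinPt_of_null hAc hr h5
    · right
      exact h5
  exact hmain

end Pool.Agent.Results.MP_f7684d_an.ThinAttracting
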